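import Mathlib
import Pool.Agent.W732.Cor.All

/-!
# The corona theorem on the ball for data `F_1(τ z), …, F_N(τ z), G(z)`

`B` is the unit ball of `ℂ^m`, `p` a unit vector, `0 ≤ t < 1`, and

  `τ z = ⟨p, z⟩ p + t (z - ⟨p, z⟩ p)`,

the linear map which fixes `p` and contracts the orthogonal complement of `p` by the factor `t`. We
prove the corona theorem, with uniform bounds, for all data `F_1 ∘ τ, …, F_N ∘ τ, G`, where
`F_1, …, F_N, G` are arbitrary bounded holomorphic functions on the ball. For `t = 0` these are the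
data with `N` functions of one variable and one arbitrary function.

The proof is in the starting library (`Pool.Agent.W732.Cor` and the modules it imports): the
functions `F ∘ τ` are uniformly continuous in the non-isotropic scale along the circle `e^{iθ} p`
(Schwarz lemma), and the equation is localised to the slices `⟨p, z⟩ = a`.
-/

set_option autoImplicit false

open Metric Set

namespace Pool.Agent.Results.MP_ca0fc2_an.ContractedData

/-- `ℂ^m` with the Euclidean norm. -/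
abbrev V (m : ℕ) := EuclideanSpace ℂ (Fin m)

/-- `g` is holomorphic on the unit ball and `|g| ≤ C` there. -/
def Hol {m : ℕ} (C : ℝ) (g : V m → ℂ) : Prop :=
  DifferentiableOn ℂ g (ball 0 1) ∧ ∀ z ∈ ball (0 : V m) 1, ‖g z‖ ≤ C

/-- The linear map `z ↦ ⟨p, z⟩ p + t (z - ⟨p, z⟩ p)`. -/
noncomputable def tau {m : ℕ} (p : V m) (t : ℝ) (z : V m) : V m :=
  (inner ℂ p z : ℂ) • p + (t : ℂ) • (z - (inner ℂ p z : ℂ) • p)

/-- **Corona theorem on the ball for `F_1 ∘ τ, …, F_N ∘ τ, G`**, with `F_1, …, F_N, G` arbitrary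
holomorphic functions on the ball, bounded by `1`, and with uniform bounds of the solutions. -/
theorem result (m : ℕ) (p : V m) (hp : ‖p‖ = 1) (t : ℝ) (ht0 : 0 ≤ t) (ht1 : t < 1) (N : ℕ)
    (δ : ℝ) (hδ : 0 < δ) :
    ∃ C : ℝ, ∀ (F : Fin N → V m → ℂ) (G : V m → ℂ), (∀ i, Hol 1 (F i)) → Hol 1 G →
      (∀ z ∈ ball (0 : V m) 1, δ ≤ ∑ i, ‖F i (tau p t z)‖ + ‖G z‖) →
      ∃ (g : Fin N → V m → ℂ) (g₀ : V m → ℂ), (∀ i, Hol C (g i)) ∧ Hol C g₀ ∧
        ∀ z ∈ ball (0 : V m) 1, ∑ i, F i (tau p t z) * g i z + G z * g₀ z = 1 := by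
  obtain ⟨C, hC⟩ := Pool.Agent.W732.Cor.uniform_tau Pool.Agent.W732.Cor.t_uni
    Pool.Agent.W732.Cor.t_sc2 p hp N δ hδ t ht0 ht1
  refine ⟨C, fun F G hF hG hc => ?_⟩
  obtain ⟨g, g₀, h1, h2, h3, h4, h5⟩ := hC F G (fun i => (hF i).1) hG.1 (fun i => (hF i).2) hG.2 hc
  exact ⟨g, g₀, fun i => ⟨h1 i, h3 i⟩, ⟨h2, h4⟩, h5⟩

end Pool.Agent.Results.MP_ca0fc2_an.ContractedData
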