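import Mathlib
import Pool.Agent.W732.Cor.All

/-!
# The corona theorem on the ball for the algebra generated by the ball algebra and all functions
`H(⟨a, z⟩ a + t (z - ⟨a, z⟩ a))`, `t < 1`, together with one arbitrary function

`B` is the unit ball of `ℂ^m`. Let `A` be the algebra generated by the holomorphic functions on `B`
which are continuous on the closed ball and by all the functions `H ∘ τ_{a,t}`, where `a` is any unit
vector, `0 ≤ t < 1`, `τ_{a,t}(z) = ⟨a, z⟩ a + t (z - ⟨a, z⟩ a)` and `H` is any bounded holomorphic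
function on `B`. In particular `A` contains all bounded holomorphic functions of one variable
`h(⟨a, z⟩)`, `|a| = 1` (`t = 0`), with singularities at all points of the sphere. We prove the corona
theorem for data `f_1, …, f_N, G` with `f_1, …, f_N` in `A` and one arbitrary `G` in `H^∞(B)`.

The proof is in the starting library (`Pool.Agent.W732.Cor` and the modules it imports).
-/

set_option autoImplicit false

open Metric Set

namespace Pool.Agent.Results.MP_ca0fc2_an.GeneratedAlgebra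

/-- `ℂ^m` with the Euclidean norm. -/
abbrev V (m : ℕ) := EuclideanSpace ℂ (Fin m)

/-- `g` is bounded and holomorphic on the unit ball. -/
def HInf {m : ℕ} (g : V m → ℂ) : Prop :=
  DifferentiableOn ℂ g (ball 0 1) ∧ ∃ C : ℝ, ∀ z ∈ ball (0 : V m) 1, ‖g z‖ ≤ C

/-- The linear map `z ↦ ⟨a, z⟩ a + t (z - ⟨a, z⟩ a)`. -/
noncomputable def tau {m : ℕ} (a : V m) (t : ℝ) (z : V m) : V m :=
  (inner ℂ a z : ℂ) • a + (t : ℂ) • (z - (inner ℂ a z : ℂ) • a)

/-- The generators: the functions of the ball algebra, and the functions `H ∘ τ_{a,t}`, where `H` is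
bounded and holomorphic on the ball, `a` is a unit vector and `0 ≤ t < 1`. -/
def Gen (m : ℕ) : Set (V m → ℂ) :=
  {f | ContinuousOn f (closedBall 0 1) ∧ DifferentiableOn ℂ f (ball 0 1)} ∪
  {f | ∃ (a : V m) (t : ℝ) (H : V m → ℂ), ‖a‖ = 1 ∧ 0 ≤ t ∧ t < 1 ∧ HInf H ∧
    f = fun z => H (tau a t z)}

/-- **Corona theorem for the algebra generated by the ball algebra and all `H ∘ τ_{a,t}`, together
with one arbitrary bounded holomorphic function.** -/
theorem result (m N : ℕ) (f : Fin N → V m → ℂ) (G : V m → ℂ)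
    (hf : ∀ j, f j ∈ Algebra.adjoin ℂ (Gen m)) (hG : HInf G) (δ : ℝ) (hδ : 0 < δ)
    (hc : ∀ z ∈ ball (0 : V m) 1, δ ≤ ∑ j, ‖f j z‖ + ‖G z‖) :
    ∃ (g : Fin N → V m → ℂ) (g₀ : V m → ℂ), (∀ j, HInf (g j)) ∧ HInf g₀ ∧
      ∀ z ∈ ball (0 : V m) 1, ∑ j, f j z * g j z + G z * g₀ z = 1 := by
  have hGen : Gen m = Pool.Agent.W732.Cor.Gen m := by
    unfold Gen Pool.Agent.W732.Cor.Gen
    congr 1
    ext f
    constructor
    · rintro ⟨a, t, H, h1, h2, h3, ⟨h4, h5⟩, h6⟩
      exact ⟨a, t, H, h1, h2, h3, h4, h5, h6⟩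
    · rintro ⟨a, t, H, h1, h2, h3, h4, h5, h6⟩
      exact ⟨a, t, H, h1, h2, h3, ⟨h4, h5⟩, h6⟩
  obtain ⟨g, g₀, h1, h2, ⟨C, h3, h4⟩, h5⟩ := Pool.Agent.W732.Cor.corona_AS
    Pool.Agent.W732.Cor.t_fin N f G
    (fun j => Pool.Agent.W732.Cor.AS_adjoin Pool.Agent.W732.Cor.t_sc1 Pool.Agent.W732.Cor.t_sc2
      Pool.Agent.W732.Cor.t_sc3 (by rw [← hGen]; exact hf j)) hG.1 hG.2 δ hδ hc
  exact ⟨g, g₀, fun j => ⟨h1 j, C, h3 j⟩, ⟨h2, C, h4⟩, h5⟩

end Pool.Agent.Results.MP_ca0fc2_an.GeneratedAlgebra
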