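import Mathlib
import Pool.Agent.W732.Cor.All

/-!
# The corona problem on the ball, modulo one coordinate

`B` is the unit ball of `ℂ^m`, `p` a unit vector and `⟨p, z⟩` the coordinate of `z` in the direction
`p`. The maps `mv p a` (`|a| < 1`) are the automorphisms of `B` which translate the complex geodesic
through `0` and `p`; the function `⟨p, z⟩` vanishes on one slice of the ball only.

We prove: corona data `f_1, …, f_N` on `B` are solvable with a bound which depends only on `N` and `C`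
as soon as all the translates `f ∘ mv p a` are solvable with the bound `C` after `⟨p, z⟩` has been
added to the data. Hence the corona theorem on the ball (with bounds) for `N` functions and a given
`δ` is equivalent to the statement that the equations

  `f_1 g_1 + … + f_N g_N + z_1 g_0 = 1`

have bounded solutions for all corona data `f_1, …, f_N`; the constants do not depend on `m`.

The proof is in the starting library (`Pool.Agent.W732.Cor` and the modules it imports): a solution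
operator of P. Jones type along holomorphic retractions onto the slices and Carleson's theorem.
-/

set_option autoImplicit false

open Metric Set

namespace Pool.Agent.Results.MP_ca0fc2_an.ModuloOneCoordinate

/-- `ℂ^m` with the Euclidean norm. -/
abbrev V (m : ℕ) := EuclideanSpace ℂ (Fin m)

/-- `g` is holomorphic on the unit ball and `|g| ≤ C` there. -/
def Hol {m : ℕ} (C : ℝ) (g : V m → ℂ) : Prop :=
  DifferentiableOn ℂ g (ball 0 1) ∧ ∀ z ∈ ball (0 : V m) 1, ‖g z‖ ≤ C

/-- Corona data: `f_1, …, f_N` are holomorphic on the ball, `|f_i| ≤ 1` and `∑ |f_i| ≥ δ`. -/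
def Data {m : ℕ} (N : ℕ) (δ : ℝ) (f : Fin N → V m → ℂ) : Prop :=
  (∀ i, Hol 1 (f i)) ∧ ∀ z ∈ ball (0 : V m) 1, δ ≤ ∑ i, ‖f i z‖

/-- `∑ f_i g_i = 1` has a solution bounded by `C` on the ball. -/
def Solvable {m N : ℕ} (C : ℝ) (f : Fin N → V m → ℂ) : Prop :=
  ∃ g : Fin N → V m → ℂ, (∀ i, Hol C (g i)) ∧ ∀ z ∈ ball (0 : V m) 1, ∑ i, f i z * g i z = 1

/-- `∑ f_i g_i + ⟨p, z⟩ g_0 = 1` has a solution bounded by `C` on the ball. -/
def SolvableMod {m N : ℕ} (p : V m) (C : ℝ) (f : Fin N → V m → ℂ) : Prop :=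
  ∃ (g : Fin N → V m → ℂ) (g₀ : V m → ℂ), (∀ i, Hol C (g i)) ∧ Hol C g₀ ∧
    ∀ z ∈ ball (0 : V m) 1, ∑ i, f i z * g i z + inner ℂ p z * g₀ z = 1

/-- The automorphisms of the ball (`‖p‖ = 1`, `|a| < 1`) which translate the complex geodesic
through `0` and `p`: `⟨p, mv p a z⟩ = (⟨p, z⟩ + a) / (1 + conj a ⟨p, z⟩)`. -/
noncomputable def mv {m : ℕ} (p : V m) (a : ℂ) (z : V m) : V m :=
  (1 / (1 + starRingEnd ℂ a * inner ℂ p z)) •
    (((inner ℂ p z : ℂ) + a) • p + ((√(1 - ‖a‖ ^ 2) : ℝ) : ℂ) • (z - (inner ℂ p z : ℂ) • p))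

/-- **The corona problem on the ball modulo one coordinate.** For all `N` and `C` there is `C'`
such that in all dimensions `m` and for all unit vectors `p`: (1) if all the translates
`f ∘ mv p a` of bounded data `f` are solvable modulo `⟨p, z⟩` with the bound `C`, then `f` is solvable
with the bound `C'`; (2) for all `δ`, if all corona data with lower bound `δ` are solvable modulo
`⟨p, z⟩` with the bound `C`, then they are all solvable with the bound `C'` (the converse is
trivial). -/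
theorem result (N : ℕ) (C : ℝ) : ∃ C' : ℝ, ∀ (m : ℕ) (p : V m), ‖p‖ = 1 →
    (∀ f : Fin N → V m → ℂ, (∀ i, Hol 1 (f i)) →
      (∀ a : ℂ, ‖a‖ < 1 → SolvableMod p C fun i z => f i (mv p a z)) → Solvable C' f) ∧
    ∀ δ : ℝ, 0 < δ → (∀ f : Fin N → V m → ℂ, Data N δ f → SolvableMod p C f) →
      ∀ f : Fin N → V m → ℂ, Data N δ f → Solvable C' f := by
  obtain ⟨C', hC'⟩ := Pool.Agent.W732.Cor.t_ball N C
  refine ⟨C', fun m p hp => ?_⟩
  have key : ∀ f : Fin N → V m → ℂ, (∀ i, Hol 1 (f i)) →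
      (∀ a : ℂ, ‖a‖ < 1 → SolvableMod p C fun i z => f i (mv p a z)) → Solvable C' f := by
    intro f hf h
    obtain ⟨g, hg, hgb, hid⟩ := hC' m p hp f (fun i => (hf i).1) (fun i => (hf i).2) (fun a ha => by
      have ha1 : ‖a‖ < 1 := mem_ball_zero_iff.1 ha
      have ha' : -a ∈ ball (0 : ℂ) 1 := by simpa using ha
      obtain ⟨hd, hm, hinv, hin, -⟩ := Pool.Agent.W732.Cor.t_mv m p hp a ha
      obtain ⟨hd', hm', hinv', hin', -⟩ := Pool.Agent.W732.Cor.t_mv m p hp (-a) ha'
      rw [neg_neg] at hinv'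
      obtain ⟨g, g₀, hg, hg₀, hid⟩ := h a ha1
      refine ⟨fun i z => g i (Pool.Agent.W732.Cor.mv p (-a) z),
        fun z => g₀ (Pool.Agent.W732.Cor.mv p (-a) z),
        fun i => (hg i).1.comp hd' hm', hg₀.1.comp hd' hm', fun i z hz => (hg i).2 _ (hm' hz),
        fun z hz => hg₀.2 _ (hm' hz), fun z hz => ?_⟩
      have h1 := hid _ (hm' hz)
      have h2 : mv p a (Pool.Agent.W732.Cor.mv p (-a) z) = z := hinv' z hz
      simp only [h2] at h1
      rw [hin' z hz, map_neg, neg_mul, ← sub_eq_add_neg, ← sub_eq_add_neg] at h1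
      exact h1)
    exact ⟨g, fun i => ⟨hg i, hgb i⟩, hid⟩
  refine ⟨key, fun δ _ h f hf => key f hf.1 fun a ha => h _ ⟨fun i => ⟨?_, ?_⟩, ?_⟩⟩
  · obtain ⟨hd, hm, -⟩ := Pool.Agent.W732.Cor.t_mv m p hp a (mem_ball_zero_iff.2 ha)
    exact (hf.1 i).1.comp hd hm
  · obtain ⟨hd, hm, -⟩ := Pool.Agent.W732.Cor.t_mv m p hp a (mem_ball_zero_iff.2 ha)
    intro z hz
    exact (hf.1 i).2 _ (hm hz)
  · obtain ⟨hd, hm, -⟩ := Pool.Agent.W732.Cor.t_mv m p hp a (mem_ball_zero_iff.2 ha)
    intro z hz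
    exact hf.2 _ (hm hz)

end Pool.Agent.Results.MP_ca0fc2_an.ModuloOneCoordinate
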