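import Mathlib
import Pool.Agent.V1186.Cor.Tube

/-!
# Slice localisation of the corona problem on the domains `|z|² + ∑ exp (2 u_j(z)) |y_j|² < 1`

Let `D ⊆ ℂ × ℂⁿ` be the domain `|z|² + ∑ exp (2 u_j(z)) |y_j|² < 1`, where the `u_j` are continuous
functions on the disc with a continuous family of holomorphic supports, for instance convex functions
of class `C¹` (for smooth `u_j` these `D` are strictly pseudoconvex domains; `u_j = 0` is the ball).
We prove that bounded data `F_1, …, F_N` on `D` are solvable, with a bound that depends only on `N`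
and `C`, if they are solvable with the bound `C` modulo each of the functions
`(z - a) / (1 - conj a z)`, `|a| < 1`, which vanish on one slice `z = a` of `D`. The bound does not
depend on the dimension or on the domain. So the corona problem on `D` is a problem at single slices.

The proof uses slice localisation for tube domains from the starting library
(`Pool.Agent.W732.Cor.t_disc`); the retractions onto the slices are in `Pool.Agent.V1186.Cor.Tube`.
-/

set_option autoImplicit false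

open Metric Set

namespace Pool.Agent.Results.MP_ca0fc2_an.SliceLocalisation

/-- The domain of the `(z, y)` in `ℂ × ℂⁿ` with `|z|² + ∑ exp (2 u_j(z)) |y_j|² < 1`. -/
def Dom (n : ℕ) (u : Fin n → ℂ → ℝ) : Set (ℂ × (Fin n → ℂ)) :=
  {q | ‖q.1‖ ^ 2 + ∑ j, Real.exp (2 * u j q.1) * ‖q.2 j‖ ^ 2 < 1}

/-- `g` is holomorphic on `D` and `|g| ≤ C` there. -/
def Hol {n : ℕ} (D : Set (ℂ × (Fin n → ℂ))) (C : ℝ) (g : ℂ × (Fin n → ℂ) → ℂ) : Prop :=
  DifferentiableOn ℂ g D ∧ ∀ q ∈ D, ‖g q‖ ≤ C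

/-- `φ` is continuous on the unit disc and has a continuous family of supports of the form
`φ(c) + log |A_c(z)|`, where `A_c` is holomorphic on the disc. -/
def Supported (φ : ℂ → ℝ) : Prop :=
  ContinuousOn φ (ball 0 1) ∧ ∃ A : ℂ → ℂ → ℂ,
    (∀ c ∈ ball (0 : ℂ) 1, DifferentiableOn ℂ (A c) (ball 0 1)) ∧
    (∀ c ∈ ball (0 : ℂ) 1, A c c = 1) ∧
    (∀ c ∈ ball (0 : ℂ) 1, ∀ z ∈ ball (0 : ℂ) 1, ‖A c z‖ ≤ Real.exp (φ z - φ c)) ∧
    ContinuousOn (fun q : ℂ × ℂ => A q.1 q.2) (ball 0 1 ×ˢ ball 0 1)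

/-- If `F` is solvable with the bound `C` modulo `(z - a) / (1 - conj a z)` for all `a` in the disc,
then `F` is solvable with the bound `C'`. -/
def Localises {n : ℕ} (D : Set (ℂ × (Fin n → ℂ))) (N : ℕ) (C C' : ℝ) : Prop :=
  ∀ F : Fin N → ℂ × (Fin n → ℂ) → ℂ, (∀ i, Hol D 1 (F i)) →
    (∀ a ∈ ball (0 : ℂ) 1, ∃ (g : Fin N → ℂ × (Fin n → ℂ) → ℂ) (g₀ : ℂ × (Fin n → ℂ) → ℂ),
      (∀ i, Hol D C (g i)) ∧ Hol D C g₀ ∧
      ∀ q ∈ D, ∑ i, F i q * g i q + (q.1 - a) / (1 - starRingEnd ℂ a * q.1) * g₀ q = 1) →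
    ∃ h : Fin N → ℂ × (Fin n → ℂ) → ℂ, (∀ i, Hol D C' (h i)) ∧ ∀ q ∈ D, ∑ i, F i q * h i q = 1

/-- **Slice localisation of the corona problem**, with constants independent of the domain. -/
theorem result (N : ℕ) (C : ℝ) : ∃ C' : ℝ, ∀ (n : ℕ) (u : Fin n → ℂ → ℝ),
    ((∀ j, Supported (u j)) → Localises (Dom n u) N C C') ∧
    ((∀ j, ConvexOn ℝ (ball (0 : ℂ) 1) (u j)) → (∀ j, ContDiffOn ℝ 1 (u j) (ball (0 : ℂ) 1)) →
      Localises (Dom n u) N C C') := by
  obtain ⟨C', hC'⟩ := Pool.Agent.W732.Cor.t_disc N C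
  refine ⟨C', fun n u => ?_⟩
  have key : ∀ A : Fin n → ℂ → ℂ → ℂ, Pool.Agent.V1186.Cor.Supp u A →
      Localises (Dom n u) N C C' := by
    intro A hA F hF h
    obtain ⟨k, hk, hkb, hid⟩ := hC' (Fin n → ℂ) (Dom n u) (Pool.Agent.V1186.Cor.LU A)
      (Pool.Agent.V1186.Cor.tubeU hA) F (fun i => (hF i).1) (fun i => (hF i).2) (fun a ha => by
        obtain ⟨g, g₀, h1, h2, h3⟩ := h a ha
        exact ⟨g, g₀, fun i => (h1 i).1, h2.1, fun i => (h1 i).2, h2.2, h3⟩)
    exact ⟨k, fun i => ⟨hk i, hkb i⟩, hid⟩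
  refine ⟨fun hs => ?_, fun hu hd => ?_⟩
  · choose hc A h1 h2 h3 h4 using hs
    exact key A ⟨hc, h1, h2, h3, h4⟩
  · obtain ⟨A, hA⟩ := Pool.Agent.V1186.Cor.supp_of_convex hu hd
    exact key A hA

end Pool.Agent.Results.MP_ca0fc2_an.SliceLocalisation
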